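import Mathlib

set_option autoImplicit false

namespace Pool.Agent.Results.MP_bdf4c5_gt.SeparableCase

open Set Topology

universe u

/-- The co-diagonal of `X`, with the subspace topology of the product `X × X`. -/
abbrev CoDiagonal (X : Type u) : Type u := {p : X × X // p.1 ≠ p.2}

/-- `A` is a countable union of compact sets. -/
def IsSigma {Z : Type u} [TopologicalSpace Z] (A : Set Z) : Prop :=
  ∃ K : ℕ → Set Z, (∀ n, IsCompact (K n)) ∧ A = ⋃ n, K n

/-- The closure of every discrete subset is a countable union of compact sets. -/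
def DiscretelySigmaCompact (Z : Type u) [TopologicalSpace Z] : Prop :=
  ∀ D : Set Z, DiscreteTopology D → IsSigma (closure D)

lemma aux {X : Type u} [TopologicalSpace X] [T2Space X] (h : DiscretelySigmaCompact (CoDiagonal X))
    (x : ℕ → X) (hx : ∀ n, ∃ V, IsOpen V ∧ x n ∈ V ∧ ∀ k, x k ∈ V → k = n)
    (p : X) (hp : p ∈ closure (range x)) (hpx : ∀ n, x n ≠ p) (q : ℕ → X) :
    IsSigma (closure (range q) \ {p}) := by
  classical
  let D : Set (CoDiagonal X) := {z | ∃ n m, m ≤ n ∧ z.1 = (x n, q m)}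
  have hD : DiscreteTopology D := by
    rw [discreteTopology_subtype_iff']
    rintro z ⟨n, m, hmn, hz⟩
    obtain ⟨V, hV, hxV, hV'⟩ := hx n
    let S : Set X := (q '' {j | j ≤ n}) \ {q m}
    have hS : S.Finite := (((finite_le_nat n)).image q).subset diff_subset
    refine ⟨{w | w.1.1 ∈ V ∧ w.1.2 ∈ Sᶜ}, ?_, ?_⟩
    · exact (hV.preimage (continuous_fst.comp continuous_subtype_val)).inter
        (hS.isClosed.isOpen_compl.preimage (continuous_snd.comp continuous_subtype_val))
    · ext w
      constructor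
      · rintro ⟨⟨h1, h2⟩, k, j, hjk, hw⟩
        rw [hw] at h1 h2
        have h3 : k = n := hV' k h1
        subst h3
        have h4 : q j = q m := by
          by_contra h4
          exact h2 ⟨⟨j, hjk, rfl⟩, h4⟩
        rw [mem_singleton_iff]
        apply Subtype.ext
        rw [hw, hz, h4]
      · intro hw
        rw [mem_singleton_iff.1 hw]
        refine ⟨⟨?_, ?_⟩, n, m, hmn, hz⟩
        · rw [hz]
          exact hxV
        · rw [hz]
          rintro ⟨-, h2⟩
          exact h2 rfl
  obtain ⟨K, hK, hK'⟩ := h D hD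
  let F : Set (CoDiagonal X) := {z | z.1.1 = p ∧ z.1.2 ∈ closure (range q)}
  have hF : IsClosed F :=
    ((isClosed_singleton (x := p)).preimage (continuous_fst.comp continuous_subtype_val)).inter
      (isClosed_closure.preimage (continuous_snd.comp continuous_subtype_val))
  have hFD : F ⊆ closure D := by
    rintro ⟨⟨a, y⟩, hay⟩ ⟨h1, h2⟩
    change a = p at h1
    change y ∈ closure (range q) at h2
    subst h1
    rw [mem_closure_iff]
    intro O hO hzO
    obtain ⟨O', hO', rfl⟩ := isOpen_induced_iff.1 hO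
    obtain ⟨V, W, hV, hW, haV, hyW, hVW⟩ := isOpen_prod_iff.1 hO' a y hzO
    obtain ⟨V1, W1, hV1, hW1, haV1, hyW1, hd⟩ := t2_separation (show a ≠ y from hay)
    obtain ⟨_, ⟨h3, h4⟩, m, rfl⟩ := mem_closure_iff.1 h2 (W ∩ W1) (hW.inter hW1) ⟨hyW, hyW1⟩
    let T : Set X := x '' {j | j < m}
    have hT : T.Finite := (finite_lt_nat m).image x
    have haT : a ∈ Tᶜ := by
      rintro ⟨j, -, hj⟩
      exact hpx j hj
    obtain ⟨_, ⟨⟨h5, h6⟩, h7⟩, n, rfl⟩ := mem_closure_iff.1 hp (V ∩ V1 ∩ Tᶜ)
      ((hV.inter hV1).inter hT.isClosed.isOpen_compl) ⟨⟨haV, haV1⟩, haT⟩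
    have hmn : m ≤ n := by
      by_contra hlt
      exact h7 ⟨n, not_le.1 hlt, rfl⟩
    have hne : x n ≠ q m := fun h => Set.disjoint_left.1 hd h6 (h ▸ h4)
    exact ⟨⟨(x n, q m), hne⟩, hVW ⟨h5, h3⟩, n, m, hmn, rfl⟩
  refine ⟨fun n => (fun z : CoDiagonal X => z.1.2) '' (K n ∩ F), fun n => ?_, ?_⟩
  · exact ((hK n).inter_right hF).image (continuous_snd.comp continuous_subtype_val)
  · ext y
    constructor
    · rintro ⟨h1, h2⟩
      have h3 : p ≠ y := fun h => h2 h.symm
      have h4 : (⟨(p, y), h3⟩ : CoDiagonal X) ∈ F := ⟨rfl, h1⟩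
      have h5 := hFD h4
      rw [hK'] at h5
      obtain ⟨n, hn⟩ := mem_iUnion.1 h5
      exact mem_iUnion.2 ⟨n, _, ⟨hn, h4⟩, rfl⟩
    · intro h1
      obtain ⟨n, z, ⟨-, h2, h3⟩, rfl⟩ := mem_iUnion.1 h1
      refine ⟨h3, fun h4 => z.2 ?_⟩
      rw [h2]
      exact h4.symm

/-- Let the co-diagonal of the Hausdorff space `X` be discretely `σ`-compact, and let some discrete
sequence of distinct points accumulate at a point `p`. Then the closure of each countable set is
`σ`-compact, also with `p` removed; in particular, if `X` is separable, then `X` is `σ`-compact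
and `p` is a `G_δ`-point. -/
theorem result {X : Type u} [TopologicalSpace X] [T2Space X]
    (h : DiscretelySigmaCompact (CoDiagonal X)) (A : Set X) (hA : A.Countable)
    (hAd : DiscreteTopology A) (p : X) (hp : p ∈ closure A) (hpA : p ∉ A) :
    (∀ Q : Set X, Q.Countable → IsSigma (closure Q \ {p}) ∧ IsSigma (closure Q)) ∧
      (TopologicalSpace.SeparableSpace X → SigmaCompactSpace X ∧ IsGδ ({p} : Set X)) := by
  classical
  have hAne : A.Nonempty := by
    rw [← closure_nonempty_iff]
    exact ⟨p, hp⟩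
  have hAinf : A.Infinite := by
    intro hfin
    rw [hfin.isClosed.closure_eq] at hp
    exact hpA hp
  have hAc : Countable A := hA.to_subtype
  have hAi : Infinite A := hAinf.to_subtype
  obtain ⟨e⟩ : Nonempty (A ≃ ℕ) := nonempty_equiv_of_countable
  let x : ℕ → X := fun n => (e.symm n).1
  have hxr : range x = A := by
    ext y
    constructor
    · rintro ⟨n, rfl⟩
      exact (e.symm n).2
    · intro hy
      exact ⟨e ⟨y, hy⟩, by simp [x]⟩
  have hx : ∀ n, ∃ V, IsOpen V ∧ x n ∈ V ∧ ∀ k, x k ∈ V → k = n := by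
    intro n
    obtain ⟨V, hV, hV'⟩ := isOpen_induced_iff.1 (isOpen_discrete ({e.symm n} : Set A))
    refine ⟨V, hV, ?_, fun k hk => ?_⟩
    · have : e.symm n ∈ ({e.symm n} : Set A) := rfl
      rw [← hV'] at this
      exact this
    · have : e.symm k ∈ (Subtype.val ⁻¹' V : Set A) := hk
      rw [hV'] at this
      exact e.symm.injective this
  have hpx : ∀ n, x n ≠ p := fun n hn => hpA (hn ▸ (e.symm n).2)
  have hmain : ∀ Q : Set X, Q.Countable → IsSigma (closure Q \ {p}) := by
    intro Q hQ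
    rcases Q.eq_empty_or_nonempty with rfl | hne
    · exact ⟨fun _ => ∅, fun _ => isCompact_empty, by simp⟩
    · obtain ⟨q, rfl⟩ := hQ.exists_eq_range hne
      exact aux h x hx p (by rw [hxr]; exact hp) hpx q
  have hmain2 : ∀ Q : Set X, Q.Countable → IsSigma (closure Q) := by
    intro Q hQ
    obtain ⟨K, hK, hK'⟩ := hmain Q hQ
    by_cases hpQ : p ∈ closure Q
    · refine ⟨fun n => K n ∪ {p}, fun n => (hK n).union isCompact_singleton, ?_⟩
      rw [← iUnion_union, ← hK', diff_union_self]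
      exact (union_eq_self_of_subset_right (singleton_subset_iff.2 hpQ)).symm
    · exact ⟨K, hK, by rw [← hK', diff_singleton_eq_self hpQ]⟩
  refine ⟨fun Q hQ => ⟨hmain Q hQ, hmain2 Q hQ⟩, ?_⟩
  rintro ⟨Q, hQ, hQd⟩
  constructor
  · obtain ⟨K, hK, hK'⟩ := hmain2 Q hQ
    rw [hQd.closure_eq] at hK'
    exact ⟨⟨K, hK, hK'.symm⟩⟩
  · obtain ⟨K, hK, hK'⟩ := hmain Q hQ
    rw [hQd.closure_eq] at hK'
    have : ({p} : Set X) = ⋂ n, (K n)ᶜ := by
      rw [← compl_iUnion, ← hK']
      ext z
      constructor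
      · intro hz hz2
        exact hz2.2 hz
      · intro hz
        by_contra hz2
        exact hz ⟨mem_univ z, hz2⟩
    rw [this]
    exact IsGδ.iInter_of_isOpen fun n => (hK n).isClosed.isOpen_compl

end Pool.Agent.Results.MP_bdf4c5_gt.SeparableCase
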