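import Mathlib
import Pool.Agent.Helper639.ForceCH
import Pool.Agent.R820.HF.LSpace

set_option autoImplicit false

namespace Pool.Agent.Results.MP_bdf4c5_gt.UnderCH

open Pool.Agent.Helper639.ForceCH (OmegaOnePreserved CHHolds)

/-- The co-diagonal of `X`, with the subspace topology of the product `X × X`. -/
abbrev CoDiagonal (X : Type) : Type := {p : X × X // p.1 ≠ p.2}

/-- The closure of every discrete subset is a countable union of compact sets. -/
def DiscretelySigmaCompact (Z : Type) [TopologicalSpace Z] : Prop :=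
  ∀ D : Set Z, DiscreteTopology D → ∃ K : ℕ → Set Z, (∀ n, IsCompact (K n)) ∧ closure D = ⋃ n, K n

/-- The closure of every discrete subset is countable. -/
def DiscretelyCountable (Z : Type) [TopologicalSpace Z] : Prop :=
  ∀ D : Set Z, DiscreteTopology D → (closure D).Countable

/-- Every open set is a union of members of `N`. -/
def IsNetwork {X : Type} [TopologicalSpace X] (N : Set (Set X)) : Prop :=
  ∀ U : Set X, IsOpen U → ∃ N' ⊆ N, U = ⋃₀ N'

/-- There is a countable network. -/
def Cosmic (X : Type) [TopologicalSpace X] : Prop :=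
  ∃ N : Set (Set X), N.Countable ∧ IsNetwork N

/-- Every subspace is separable. -/
def HereditarilySeparable (Y : Type) [TopologicalSpace Y] : Prop :=
  ∀ S : Set Y, TopologicalSpace.SeparableSpace S

/-- Some forcing notion forces that `ω₁` is preserved and CH holds, and CH implies that there is a
Tychonoff space `X` whose co-diagonal is discretely `σ`-compact, in fact discretely countable, such
that `X` is not cosmic, in fact not separable; moreover `C_p(X)` is hereditarily separable. -/
theorem result :
    (∃ (P : Type) (_ : Preorder P), Nonempty P ∧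
      ∀ p : P, p ∈ OmegaOnePreserved P ∧ p ∈ CHHolds P) ∧
    (Cardinal.aleph.{0} 1 = Cardinal.continuum →
      ∃ (X : Type) (_ : TopologicalSpace X), T35Space X ∧
        DiscretelySigmaCompact (CoDiagonal X) ∧ ¬ Cosmic X ∧
        DiscretelyCountable (CoDiagonal X) ∧ ¬ TopologicalSpace.SeparableSpace X ∧
        HereditarilySeparable {f : X → ℝ // Continuous f}) := by
  refine ⟨?_, fun hCH => ?_⟩
  · obtain ⟨P, i, hn, h⟩ := Pool.Agent.Helper639.ForceCH.exists_forcing
    exact ⟨P, i, hn, fun p => ⟨(h p).1, (h p).2.2⟩⟩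
  · obtain ⟨X, τ, h1, h2, h3, h4⟩ := Pool.Agent.R820.LSp.main hCH
    refine ⟨X, τ, h1, fun D hD => ?_, ?_, h2, h3, h4⟩
    · rcases (closure D).eq_empty_or_nonempty with h | h
      · refine ⟨fun _ => ∅, fun _ => isCompact_empty, ?_⟩
        rw [h, Set.iUnion_empty]
      · obtain ⟨f, hf⟩ := (h2 D hD).exists_eq_range h
        refine ⟨fun n => {f n}, fun n => isCompact_singleton, ?_⟩
        rw [Set.iUnion_singleton_eq_range, hf]
    · rintro ⟨N, hN, hN'⟩
      apply h3
      have h5 : ∀ A : Set X, ∃ B : Set X, B.Countable ∧ (A.Nonempty → (A ∩ B).Nonempty) := by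
        intro A
        by_cases h : A.Nonempty
        · obtain ⟨a, ha⟩ := h
          exact ⟨{a}, Set.countable_singleton a, fun _ => ⟨a, ha, rfl⟩⟩
        · exact ⟨∅, Set.countable_empty, fun h' => absurd h' h⟩
      choose B hB hB' using h5
      refine ⟨⋃ A ∈ N, B A, hN.biUnion fun A _ => hB A, ?_⟩
      rw [dense_iff_inter_open]
      rintro U hU ⟨u, hu⟩
      obtain ⟨N', h6, h7⟩ := hN' U hU
      rw [h7] at hu
      obtain ⟨A, hA, huA⟩ := hu
      obtain ⟨b, hb, hb'⟩ := hB' A ⟨u, huA⟩
      refine ⟨b, ?_, Set.mem_biUnion (h6 hA) hb'⟩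
      rw [h7]
      exact ⟨A, hA, hb⟩

end Pool.Agent.Results.MP_bdf4c5_gt.UnderCH
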